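import Pool.Agent.W97.KE.Stm

/-!
Project KE (helper97), MP_3c6ab9_nt: parts NU and AB.
-/

set_option autoImplicit false

open scoped Classical

namespace Pool.Agent.W636.KE

open Pool.Agent.W97.KE

/-! ### units of `ZMod` -/

theorem units_inj {A B L : ℕ} (hA : A ∣ L) (hB : B ∣ L) (hL : Nat.lcm A B = L)
    (w₁ w₂ : (ZMod L)ˣ) (h1 : ZMod.unitsMap hA w₁ = ZMod.unitsMap hA w₂)
    (h2 : ZMod.unitsMap hB w₁ = ZMod.unitsMap hB w₂) : w₁ = w₂ := by
  apply Units.ext
  rw [← sub_eq_zero]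
  obtain ⟨c, hc⟩ := ZMod.intCast_surjective ((w₁ : ZMod L) - (w₂ : ZMod L))
  rw [← hc]
  have h1' : ZMod.castHom hA (ZMod A) (w₁ : ZMod L) = ZMod.castHom hA (ZMod A) (w₂ : ZMod L) := by
    have := congrArg Units.val h1
    simpa [ZMod.unitsMap_def] using this
  have h2' : ZMod.castHom hB (ZMod B) (w₁ : ZMod L) = ZMod.castHom hB (ZMod B) (w₂ : ZMod L) := by
    have := congrArg Units.val h2
    simpa [ZMod.unitsMap_def] using this
  have e1 : ((c : ℤ) : ZMod A) = 0 := by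
    have := congrArg (ZMod.castHom hA (ZMod A)) hc
    rw [map_intCast, map_sub, h1', sub_self] at this
    exact this
  have e2 : ((c : ℤ) : ZMod B) = 0 := by
    have := congrArg (ZMod.castHom hB (ZMod B)) hc
    rw [map_intCast, map_sub, h2', sub_self] at this
    exact this
  rw [ZMod.intCast_zmod_eq_zero_iff_dvd] at e1 e2 ⊢
  have d1 : A ∣ c.natAbs := Int.natCast_dvd.1 e1
  have d2 : B ∣ c.natAbs := Int.natCast_dvd.1 e2
  exact Int.natCast_dvd.2 (hL ▸ Nat.lcm_dvd d1 d2)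

theorem units_surj {A B L D : ℕ} (hA : A ∣ L) (hB : B ∣ L) (hDA : D ∣ A) (hDB : D ∣ B)
    (hL : Nat.lcm A B = L) (hD : Nat.gcd A B = D) [NeZero A] [NeZero B] (u : (ZMod A)ˣ)
    (v : (ZMod B)ˣ) (h : ZMod.unitsMap hDA u = ZMod.unitsMap hDB v) :
    ∃ w : (ZMod L)ˣ, ZMod.unitsMap hA w = u ∧ ZMod.unitsMap hB w = v := by
  have hu : ((u : ZMod A).val : ZMod A) = u := ZMod.natCast_zmod_val _
  have hv : ((v : ZMod B).val : ZMod B) = v := ZMod.natCast_zmod_val _
  set a := (u : ZMod A).val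
  set b := (v : ZMod B).val
  have h1 : ((a : ℕ) : ZMod D) = (b : ℕ) := by
    have := congrArg Units.val h
    simp only [ZMod.unitsMap_def, Units.coe_map, MonoidHom.coe_coe] at this
    rw [← hu, ← hv, map_natCast, map_natCast] at this
    exact this
  have h2 : a ≡ b [MOD Nat.gcd A B] := by
    rw [hD]; exact (ZMod.natCast_eq_natCast_iff _ _ _).1 h1
  obtain ⟨k, hk1, hk2⟩ := Nat.chineseRemainder' h2
  have k1 : ((k : ℕ) : ZMod A) = u := by
    rw [← hu]; exact (ZMod.natCast_eq_natCast_iff _ _ _).2 hk1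
  have k2 : ((k : ℕ) : ZMod B) = v := by
    rw [← hv]; exact (ZMod.natCast_eq_natCast_iff _ _ _).2 hk2
  have c1 : Nat.Coprime k A := by
    rw [← ZMod.isUnit_iff_coprime, k1]; exact u.isUnit
  have c2 : Nat.Coprime k B := by
    rw [← ZMod.isUnit_iff_coprime, k2]; exact v.isUnit
  have c3 : Nat.Coprime k L := by
    refine Nat.Coprime.coprime_dvd_right ?_ (Nat.Coprime.mul_right c1 c2)
    rw [← hL]
    exact Nat.lcm_dvd_mul A B
  refine ⟨ZMod.unitOfCoprime k c3, ?_, ?_⟩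
  · apply Units.ext
    simp only [ZMod.unitsMap_def, Units.coe_map, MonoidHom.coe_coe, ZMod.coe_unitOfCoprime,
      map_natCast]
    exact k1
  · apply Units.ext
    simp only [ZMod.unitsMap_def, Units.coe_map, MonoidHom.coe_coe, ZMod.coe_unitOfCoprime,
      map_natCast]
    exact k2

/-! ### coefficients -/

theorem coeff_map {R G K : Type} [CommRing R] [CommGroup G] [CommGroup K] [Fintype G] [DecidableEq K]
    (f : G →* K) (x : MonoidAlgebra R G) (v : K) :
    (MonoidAlgebra.mapDomainRingHom R f x).coeff v = ∑ g with f g = v, x.coeff g := by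
  have hx : x = ∑ g, MonoidAlgebra.single g (x.coeff g) := by
    ext g
    rw [MonoidAlgebra.coeff_sum, Finsupp.finsetSum_apply]
    simp [Finsupp.single_apply]
  conv_lhs => rw [hx]
  rw [map_sum, MonoidAlgebra.coeff_sum, Finsupp.finsetSum_apply, Finset.sum_filter]
  refine Finset.sum_congr rfl fun g _ => ?_
  simp [Finsupp.single_apply]

theorem coeff_nu (p : ℕ) [Fact p.Prime] {m' m : ℕ} (h : m' ∣ m) (hm : 1 ≤ m)
    (x : ∀ n, Rn p m' n) (n : ℕ) (u : (ZMod (m * p ^ (n + 1)))ˣ) :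
    ((nuFun p h x n).coeff u) =
      (x n).coeff (ZMod.unitsMap (Nat.mul_dvd_mul_right h (p ^ (n + 1))) u) := by
  have hp : 0 < p := (Fact.out : p.Prime).pos
  have : NeZero (m * p ^ (n + 1)) := ⟨by positivity⟩
  unfold nuFun
  rw [finsum_eq_sum_of_fintype, MonoidAlgebra.coeff_sum, Finsupp.finsetSum_apply]
  simp [Finsupp.single_apply]

theorem s_nu : S_NU := by
  intro p _ m' m h hm hpm x n
  have hp : 0 < p := (Fact.out : p.Prime).pos
  obtain ⟨d, rfl⟩ := h
  have hm' : 0 < m' := Nat.pos_of_ne_zero fun h0 => by simp [h0] at hm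
  have hd : 0 < d := Nat.pos_of_ne_zero fun h0 => by simp [h0] at hm
  have hcop : Nat.Coprime d p := by
    refine Nat.Coprime.symm ((Nat.Prime.coprime_iff_not_dvd Fact.out).2 fun hh => hpm ?_)
    exact Dvd.dvd.mul_left hh m'
  have : NeZero (m' * d * p ^ (n + 1)) := ⟨by positivity⟩
  have : NeZero (m' * d * p ^ (n + 1 + 1)) := ⟨by positivity⟩
  have : NeZero (m' * p ^ (n + 1)) := ⟨by positivity⟩
  have : NeZero (m' * p ^ (n + 1 + 1)) := ⟨by positivity⟩
  have eA : m' * d * p ^ (n + 1) = (m' * p ^ (n + 1)) * d := by ring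
  have eB : m' * p ^ (n + 1 + 1) = (m' * p ^ (n + 1)) * p := by ring
  have hgcd : Nat.gcd (m' * d * p ^ (n + 1)) (m' * p ^ (n + 1 + 1)) = m' * p ^ (n + 1) := by
    rw [eA, eB, Nat.gcd_mul_left, hcop, mul_one]
  have hlcm : Nat.lcm (m' * d * p ^ (n + 1)) (m' * p ^ (n + 1 + 1)) = m' * d * p ^ (n + 1 + 1) := by
    rw [eA, eB, Nat.lcm_mul_left, hcop.lcm_eq_mul]; ring
  apply MonoidAlgebra.ext
  apply Finsupp.ext
  intro u
  rw [coeff_nu p _ hm x.1 n u]
  have h1 : (projn p (m' * d) n (nuFun p (Dvd.intro d rfl) x.1 (n + 1))).coeff u = _ :=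
    coeff_map _ _ u
  refine h1.trans ?_
  rw [← x.2 n]
  have h2 : (projn p m' n (x.1 (n + 1))).coeff
    (ZMod.unitsMap (Nat.mul_dvd_mul_right (Dvd.intro d rfl) (p ^ (n + 1))) u) = _ := coeff_map _ _ _
  refine Eq.trans ?_ h2.symm
  have hcomm : ∀ w : (ZMod (m' * d * p ^ (n + 1 + 1)))ˣ,
      ZMod.unitsMap (Nat.mul_dvd_mul_left m' (pow_dvd_pow p (Nat.le_succ (n + 1))))
        (ZMod.unitsMap (Nat.mul_dvd_mul_right (Dvd.intro d rfl : m' ∣ m' * d) (p ^ (n + 1 + 1))) w) =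
      ZMod.unitsMap (Nat.mul_dvd_mul_right (Dvd.intro d rfl : m' ∣ m' * d) (p ^ (n + 1)))
        (ZMod.unitsMap (Nat.mul_dvd_mul_left (m' * d) (pow_dvd_pow p (Nat.le_succ (n + 1)))) w) := by
    intro w
    rw [← MonoidHom.comp_apply, ← MonoidHom.comp_apply, ZMod.unitsMap_comp, ZMod.unitsMap_comp]
  refine Finset.sum_bij (fun w _ =>
    ZMod.unitsMap (Nat.mul_dvd_mul_right (Dvd.intro d rfl : m' ∣ m' * d) (p ^ (n + 1 + 1))) w)
    ?_ ?_ ?_ ?_
  · intro w hw
    rw [Finset.mem_filter] at hw ⊢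
    exact ⟨Finset.mem_univ _, by rw [hcomm, hw.2]⟩
  · intro w₁ h₁ w₂ h₂ hh
    rw [Finset.mem_filter] at h₁ h₂
    exact units_inj _ _ hlcm w₁ w₂ (h₁.2.trans h₂.2.symm) hh
  · intro v hv
    rw [Finset.mem_filter] at hv
    obtain ⟨w, hw1, hw2⟩ := units_surj
      (Nat.mul_dvd_mul_left (m' * d) (pow_dvd_pow p (Nat.le_succ (n + 1))))
      (Nat.mul_dvd_mul_right (Dvd.intro d rfl : m' ∣ m' * d) (p ^ (n + 1 + 1)))
      (Nat.mul_dvd_mul_right (Dvd.intro d rfl : m' ∣ m' * d) (p ^ (n + 1)))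
      (Nat.mul_dvd_mul_left m' (pow_dvd_pow p (Nat.le_succ (n + 1)))) hlcm hgcd u v hv.2.symm
    exact ⟨w, Finset.mem_filter.2 ⟨Finset.mem_univ _, hw1⟩, hw2⟩
  · intro w _
    exact coeff_nu p _ hm x.1 (n + 1) w

/-! ### sums over fibres -/

theorem sum_fib {G K M : Type} [CommGroup G] [CommGroup K] [Fintype G] [Fintype K]
    [DecidableEq K] [AddCommMonoid M] (f : G →* K) (hf : Function.Surjective f) (c : ℕ)
    (hc : Fintype.card G = c * Fintype.card K) (F : K → M) :
    ∑ g, F (f g) = c • ∑ k, F k := by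
  have h1 : ∀ k : K, (Finset.univ.filter (fun g => f g = k)).card =
      (Finset.univ.filter (fun g => f g = 1)).card := fun k =>
    MonoidHom.card_fiber_eq_of_mem_range f (hf k) ⟨1, map_one f⟩
  have h2 : Fintype.card G = Fintype.card K * (Finset.univ.filter (fun g => f g = 1)).card := by
    have := Finset.card_eq_sum_card_fiberwise (s := (Finset.univ : Finset G))
      (t := (Finset.univ : Finset K)) (f := f) (fun _ _ => Finset.mem_univ _)
    rw [Finset.card_univ] at this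
    rw [this, Finset.sum_congr rfl (fun k _ => h1 k), Finset.sum_const, Finset.card_univ,
      smul_eq_mul]
  have h3 : (Finset.univ.filter (fun g => f g = 1)).card = c := by
    have h4 : Fintype.card K * (Finset.univ.filter (fun g => f g = 1)).card =
        Fintype.card K * c := by rw [← h2, hc, mul_comm]
    exact Nat.eq_of_mul_eq_mul_left (Fintype.card_pos) h4
  rw [← Finset.sum_fiberwise (Finset.univ : Finset G) f (fun g => F (f g)), Finset.smul_sum]
  refine Finset.sum_congr rfl fun k _ => ?_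
  rw [Finset.sum_congr rfl (g := fun _ => F k), Finset.sum_const, h1, h3]
  intro g hg
  rw [(Finset.mem_filter.1 hg).2]

theorem card_units {p l : ℕ} (hp : p.Prime) (hl : l.Prime) (hpl : p ≠ l)
    [Fintype (ZMod (l * p ^ (1 + 1)))ˣ] [Fintype (ZMod (1 * p ^ (1 + 1)))ˣ] :
    Fintype.card (ZMod (l * p ^ (1 + 1)))ˣ = (l - 1) * Fintype.card (ZMod (1 * p ^ (1 + 1)))ˣ := by
  have : NeZero (l * p ^ (1 + 1)) := ⟨by have := hp.pos; have := hl.pos; positivity⟩
  have : NeZero (1 * p ^ (1 + 1)) := ⟨by have := hp.pos; positivity⟩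
  have e1 : Fintype.card (ZMod (l * p ^ (1 + 1)))ˣ = Nat.totient (l * p ^ (1 + 1)) := by
    rw [← ZMod.card_units_eq_totient]
  have e2 : Fintype.card (ZMod (1 * p ^ (1 + 1)))ˣ = Nat.totient (1 * p ^ (1 + 1)) := by
    rw [← ZMod.card_units_eq_totient]
  rw [e1, e2, one_mul, Nat.totient_mul, Nat.totient_prime hl]
  exact Nat.Coprime.pow_right _ ((Nat.coprime_primes hl hp).2 (Ne.symm hpl))

theorem s_ab : S_AB := by
  intro p _ l hl hpl1 hpl lam hlam
  have hp : p.Prime := Fact.out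
  have hp0 := hp.pos
  have hl0 := hl.pos
  have : NeZero (l * p ^ (1 + 1)) := ⟨by positivity⟩
  have : NeZero (1 * p ^ (1 + 1)) := ⟨by positivity⟩
  have hsurj : Function.Surjective (prl p l) := ZMod.unitsMap_surjective _
  have hcard := card_units hp hl hpl
  have hl1 : ((l - 1 : ℕ) : ZMod p) = 0 := (ZMod.natCast_eq_zero_iff _ _).2 hpl1
  have hlam1 : lam 1 = 0 := by
    have := hlam 1 1
    rw [mul_one] at this
    simpa using this
  have hlinv : ∀ c, lam c⁻¹ = -lam c := by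
    intro c
    have := hlam c⁻¹ c
    rw [inv_mul_cancel, hlam1] at this
    exact eq_neg_of_add_eq_zero_left this.symm
  refine ⟨fun y => ?_, fun y => ?_, fun x y a c ha hx => ?_⟩
  · rw [finsum_eq_sum_of_fintype, finsum_eq_sum_of_fintype]
    have h1 : ∀ u : (ZMod (l * p ^ (1 + 1)))ˣ,
        ((nuFun p (one_dvd l) y 1).coeff u : ℤ_[p]) = (y 1).coeff (prl p l u) :=
      fun u => coeff_nu p (one_dvd l) hl0 y 1 u
    rw [Finset.sum_congr rfl (fun u _ => h1 u),
      sum_fib (prl p l) hsurj (l - 1) hcard (fun b => ((y 1).coeff b : ℤ_[p])), nsmul_eq_mul]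
  · rw [finsum_eq_sum_of_fintype]
    have h1 : ∀ u : (ZMod (l * p ^ (1 + 1)))ˣ,
        lam (prl p l u) * PadicInt.toZMod ((nuFun p (one_dvd l) y 1).coeff u) =
          (fun b => lam b * PadicInt.toZMod ((y 1).coeff b)) (prl p l u) := fun u => by
      rw [coeff_nu p (one_dvd l) hl0 y 1 u]; rfl
    rw [Finset.sum_congr rfl (fun u _ => h1 u),
      sum_fib (prl p l) hsurj (l - 1) hcard (fun b => lam b * PadicInt.toZMod ((y 1).coeff b)),
      nsmul_eq_mul, hl1, zero_mul]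
  · have hx' : ∀ b : (ZMod (1 * p ^ (1 + 1)))ˣ,
        ∑ u ∈ Finset.univ.filter (fun u => prl p l u = b), ((x.1 1).coeff u : ℤ_[p]) =
          a * (y.1 1).coeff b - (y.1 1).coeff (c * b) - (y.1 1).coeff (c⁻¹ * b) := by
      intro b
      rw [← hx b, finsum_eq_sum_of_fintype]
      exact Finset.sum_subtype _ (fun u => by simp) (fun u => ((x.1 1).coeff u : ℤ_[p]))
    have hsh : ∀ (d : (ZMod (1 * p ^ (1 + 1)))ˣ) (F : (ZMod (1 * p ^ (1 + 1)))ˣ → ℤ_[p]),
        ∑ b, F (d * b) = ∑ b, F b := fun d F => Equiv.sum_comp (Equiv.mulLeft d) F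
    obtain ⟨k, hk⟩ := ha
    constructor
    · refine ⟨k * ∑ b, ((y.1 1).coeff b : ℤ_[p]), ?_⟩
      rw [finsum_eq_sum_of_fintype,
        ← Finset.sum_fiberwise (Finset.univ : Finset (ZMod (l * p ^ (1 + 1)))ˣ) (prl p l),
        Finset.sum_congr rfl (fun b _ => hx' b), Finset.sum_sub_distrib, Finset.sum_sub_distrib,
        ← Finset.mul_sum, hsh c (fun b => ((y.1 1).coeff b : ℤ_[p])),
        hsh c⁻¹ (fun b => ((y.1 1).coeff b : ℤ_[p]))]
      have h2 : (a : ℤ_[p]) = p * k + 2 := by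
        have : a = p * k + 2 := by linarith
        rw [this]; push_cast; ring
      rw [h2]; ring
    · rw [finsum_eq_sum_of_fintype,
        ← Finset.sum_fiberwise (Finset.univ : Finset (ZMod (l * p ^ (1 + 1)))ˣ) (prl p l)]
      have h3 : ∀ b : (ZMod (1 * p ^ (1 + 1)))ˣ,
          ∑ u ∈ Finset.univ.filter (fun u => prl p l u = b),
            lam (prl p l u) * PadicInt.toZMod ((x.1 1).coeff u : ℤ_[p]) =
          (a : ZMod p) * (lam b * PadicInt.toZMod ((y.1 1).coeff b : ℤ_[p])) -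
            (lam (c * b) - lam c) * PadicInt.toZMod ((y.1 1).coeff (c * b) : ℤ_[p]) -
            (lam (c⁻¹ * b) + lam c) * PadicInt.toZMod ((y.1 1).coeff (c⁻¹ * b) : ℤ_[p]) := by
        intro b
        rw [Finset.sum_congr rfl (g := fun u => lam b * PadicInt.toZMod ((x.1 1).coeff u : ℤ_[p]))
          (fun u hu => by rw [(Finset.mem_filter.1 hu).2]), ← Finset.mul_sum, ← map_sum, hx' b,
          map_sub, map_sub, map_mul, map_intCast, hlam, hlam, hlinv]
        ring
      rw [Finset.sum_congr rfl (fun b _ => h3 b), Finset.sum_sub_distrib, Finset.sum_sub_distrib,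
        ← Finset.mul_sum]
      have hsh' : ∀ (d : (ZMod (1 * p ^ (1 + 1)))ˣ) (F : (ZMod (1 * p ^ (1 + 1)))ˣ → ZMod p),
          ∑ b, F (d * b) = ∑ b, F b := fun d F => Equiv.sum_comp (Equiv.mulLeft d) F
      rw [hsh' c (fun b => (lam b - lam c) * PadicInt.toZMod ((y.1 1).coeff b : ℤ_[p])),
        hsh' c⁻¹ (fun b => (lam b + lam c) * PadicInt.toZMod ((y.1 1).coeff b : ℤ_[p]))]
      have h2 : (a : ZMod p) = 2 := by
        have : a = p * k + 2 := by linarith
        rw [this]; push_cast; simp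
      rw [h2]
      simp only [sub_mul, add_mul, Finset.sum_sub_distrib, Finset.sum_add_distrib]
      ring

end Pool.Agent.W636.KE
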